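import Mathlib

set_option autoImplicit false

namespace Pool.Agent.TL

open Set Topology

abbrev F : Type := ℕ →₀ ℤ
def G : Type := Multiplicative (F × F)

noncomputable instance : CommGroup G := inferInstanceAs (CommGroup (Multiplicative (F × F)))
noncomputable instance : Lattice G := inferInstanceAs (Lattice (F × F))

def mk (a b : F) : G := Multiplicative.ofAdd (a, b)
def f1 (x : G) : F := (Multiplicative.toAdd x).1
def f2 (x : G) : F := (Multiplicative.toAdd x).2

theorem ext' {x y : G} (h1 : f1 x = f1 y) (h2 : f2 x = f2 y) : x = y := Prod.ext h1 h2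
@[simp] theorem f1_mul (x y : G) : f1 (x * y) = f1 x + f1 y := rfl
@[simp] theorem f2_mul (x y : G) : f2 (x * y) = f2 x + f2 y := rfl
@[simp] theorem f1_inv (x : G) : f1 x⁻¹ = - f1 x := rfl
@[simp] theorem f2_inv (x : G) : f2 x⁻¹ = - f2 x := rfl
@[simp] theorem f1_one : f1 1 = 0 := rfl
@[simp] theorem f2_one : f2 1 = 0 := rfl
@[simp] theorem f1_mk (a b : F) : f1 (mk a b) = a := rfl
@[simp] theorem f2_mk (a b : F) : f2 (mk a b) = b := rfl
@[simp] theorem f1_sup (x y : G) : f1 (x ⊔ y) = f1 x ⊔ f1 y := rfl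
@[simp] theorem f2_sup (x y : G) : f2 (x ⊔ y) = f2 x ⊔ f2 y := rfl
@[simp] theorem f1_inf (x y : G) : f1 (x ⊓ y) = f1 x ⊓ f1 y := rfl
@[simp] theorem f2_inf (x y : G) : f2 (x ⊓ y) = f2 x ⊓ f2 y := rfl
theorem le_iff (x y : G) : x ≤ y ↔ f1 x ≤ f1 y ∧ f2 x ≤ f2 y := Iff.rfl

instance : MulLeftMono G := ⟨fun x y z h => by
  rw [le_iff] at h ⊢
  simp only [f1_mul, f2_mul]
  exact ⟨add_le_add_right h.1 _, add_le_add_right h.2 _⟩⟩

instance : MulRightMono G := ⟨fun x y z h => by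
  show y * x ≤ z * x
  rw [mul_comm y, mul_comm z]
  exact mul_le_mul_right h x⟩

def tail (k : ℕ) (a : F) : Prop := ∀ i < k, a i = 0

instance : TopologicalSpace G where
  IsOpen U := ∀ x ∈ U, ∃ k : ℕ, ∀ a : F, tail k a → x * mk a a ∈ U
  isOpen_univ := fun _ _ => ⟨0, fun _ _ => trivial⟩
  isOpen_inter U V hU hV x hx := by
    obtain ⟨k, hk⟩ := hU x hx.1
    obtain ⟨l, hl⟩ := hV x hx.2
    exact ⟨max k l, fun a ha => ⟨hk a (fun i hi => ha i (lt_of_lt_of_le hi (le_max_left _ _))),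
      hl a (fun i hi => ha i (lt_of_lt_of_le hi (le_max_right _ _)))⟩⟩
  isOpen_sUnion S hS x hx := by
    obtain ⟨U, hU, hxU⟩ := hx
    obtain ⟨k, hk⟩ := hS U hU x hxU
    exact ⟨k, fun a ha => ⟨U, hU, hk a ha⟩⟩

theorem open_iff (U : Set G) : IsOpen U ↔ ∀ x ∈ U, ∃ k : ℕ, ∀ a : F, tail k a → x * mk a a ∈ U := Iff.rfl

theorem coset_open (x : G) (k : ℕ) : IsOpen {y : G | ∃ a : F, tail k a ∧ y = x * mk a a} := by
  rw [open_iff]
  rintro y ⟨a, ha, rfl⟩
  refine ⟨k, fun b hb => ⟨a + b, fun i hi => ?_, ?_⟩⟩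
  · rw [Finsupp.add_apply, ha i hi, hb i hi, add_zero]
  · apply ext' <;> simp [add_assoc]

theorem coset_nhds (x : G) (k : ℕ) : {y : G | ∃ a : F, tail k a ∧ y = x * mk a a} ∈ 𝓝 x :=
  (coset_open x k).mem_nhds ⟨0, fun _ _ => rfl, by apply ext' <;> simp⟩

theorem cont2 (f : G → G → G) (h : ∀ x y k, ∃ m, ∀ a b, tail m a → tail m b →
    ∃ c, tail k c ∧ f (x * mk a a) (y * mk b b) = f x y * mk c c) : Continuous (fun p : G × G => f p.1 p.2) := by
  rw [continuous_iff_continuousAt]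
  rintro ⟨x, y⟩
  intro V hV
  obtain ⟨U, hUV, hU, hxU⟩ := mem_nhds_iff.1 hV
  obtain ⟨k, hk⟩ := hU _ hxU
  obtain ⟨m, hm⟩ := h x y k
  rw [Filter.mem_map]
  refine Filter.mem_of_superset (prod_mem_nhds (coset_nhds x m) (coset_nhds y m)) ?_
  rintro ⟨_, _⟩ ⟨⟨a, ha, rfl⟩, ⟨b, hb, rfl⟩⟩
  obtain ⟨c, hc, he⟩ := hm a b ha hb
  apply hUV
  show f _ _ ∈ U
  rw [he]
  exact hk c hc

theorem exists_bound (a : F) : ∃ m, ∀ i, m ≤ i → a i = 0 := by
  obtain ⟨m, hm⟩ := a.support.bddAbove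
  refine ⟨m + 1, fun i hi => ?_⟩
  by_contra h
  have := hm (Finsupp.mem_support_iff.2 h)
  omega

instance : IsTopologicalGroup G where
  continuous_mul := by
    apply cont2 (fun x y => x * y)
    intro x y k
    refine ⟨k, fun a b ha hb => ⟨a + b, fun i hi => ?_, ?_⟩⟩
    · rw [Finsupp.add_apply, ha i hi, hb i hi, add_zero]
    · apply ext' <;> simp <;> abel
  continuous_inv := by
    have := cont2 (fun x _ => x⁻¹) (by
      intro x y k
      refine ⟨k, fun a b ha hb => ⟨-a, fun i hi => ?_, ?_⟩⟩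
      · rw [Finsupp.neg_apply, ha i hi, neg_zero]
      · apply ext' <;> simp <;> abel)
    exact this.comp (continuous_id.prodMk continuous_const : Continuous (fun x : G => (x, (1 : G))))

theorem four_bound (x y : G) (k : ℕ) : ∃ m, k ≤ m ∧ ∀ i, m ≤ i → f1 x i = 0 ∧ f2 x i = 0 ∧ f1 y i = 0 ∧ f2 y i = 0 := by
  obtain ⟨m1, h1⟩ := exists_bound (f1 x)
  obtain ⟨m2, h2⟩ := exists_bound (f2 x)
  obtain ⟨m3, h3⟩ := exists_bound (f1 y)
  obtain ⟨m4, h4⟩ := exists_bound (f2 y)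
  refine ⟨k + m1 + m2 + m3 + m4, by omega, fun i hi => ⟨h1 i (by omega), h2 i (by omega), h3 i (by omega), h4 i (by omega)⟩⟩

instance : TopologicalLattice G where
  continuous_sup := by
    apply cont2 (fun x y => x ⊔ y)
    intro x y k
    obtain ⟨m, hkm, hm⟩ := four_bound x y k
    refine ⟨m, fun a b ha hb => ⟨a ⊔ b, fun i hi => ?_, ?_⟩⟩
    · rw [Finsupp.sup_apply, ha i (by omega), hb i (by omega), sup_idem]
    · apply ext'
      · ext i
        simp only [f1_sup, f1_mul, f1_mk, Finsupp.sup_apply, Finsupp.add_apply]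
        by_cases h : i < m
        · rw [ha i h, hb i h]; simp
        · rw [(hm i (by omega)).1, (hm i (by omega)).2.2.1]; simp
      · ext i
        simp only [f2_sup, f2_mul, f2_mk, Finsupp.sup_apply, Finsupp.add_apply]
        by_cases h : i < m
        · rw [ha i h, hb i h]; simp
        · rw [(hm i (by omega)).2.1, (hm i (by omega)).2.2.2]; simp
  continuous_inf := by
    apply cont2 (fun x y => x ⊓ y)
    intro x y k
    obtain ⟨m, hkm, hm⟩ := four_bound x y k
    refine ⟨m, fun a b ha hb => ⟨a ⊓ b, fun i hi => ?_, ?_⟩⟩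
    · rw [Finsupp.inf_apply, ha i (by omega), hb i (by omega), inf_idem]
    · apply ext'
      · ext i
        simp only [f1_inf, f1_mul, f1_mk, Finsupp.inf_apply, Finsupp.add_apply]
        by_cases h : i < m
        · rw [ha i h, hb i h]; simp
        · rw [(hm i (by omega)).1, (hm i (by omega)).2.2.1]; simp
      · ext i
        simp only [f2_inf, f2_mul, f2_mk, Finsupp.inf_apply, Finsupp.add_apply]
        by_cases h : i < m
        · rw [ha i h, hb i h]; simp
        · rw [(hm i (by omega)).2.1, (hm i (by omega)).2.2.2]; simp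

def AA : Subgroup G where
  carrier := {x | f2 x = 0}
  mul_mem' := fun {x y} hx hy => by
    show f2 x + f2 y = 0
    have h1 : f2 x = 0 := hx
    have h2 : f2 y = 0 := hy
    rw [h1, h2, add_zero]
  one_mem' := rfl
  inv_mem' := fun {x} hx => by
    show - f2 x = 0
    have h1 : f2 x = 0 := hx
    rw [h1, neg_zero]

def BB : Subgroup G where
  carrier := {x | f1 x = 0}
  mul_mem' := fun {x y} hx hy => by
    show f1 x + f1 y = 0
    have h1 : f1 x = 0 := hx
    have h2 : f1 y = 0 := hy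
    rw [h1, h2, add_zero]
  one_mem' := rfl
  inv_mem' := fun {x} hx => by
    show - f1 x = 0
    have h1 : f1 x = 0 := hx
    rw [h1, neg_zero]

theorem closedA : IsClosed (AA : Set G) := by
  rw [← isOpen_compl_iff, open_iff]
  intro x hx
  have hx' : f2 x ≠ 0 := hx
  obtain ⟨i, hi⟩ := Finsupp.ne_iff.1 hx'
  refine ⟨i + 1, fun a ha h => hi ?_⟩
  have h' : f2 x + a = 0 := h
  have := DFunLike.congr_fun h' i
  rw [Finsupp.add_apply, ha i (by omega), add_zero] at this
  exact this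

theorem closedB : IsClosed (BB : Set G) := by
  rw [← isOpen_compl_iff, open_iff]
  intro x hx
  have hx' : f1 x ≠ 0 := hx
  obtain ⟨i, hi⟩ := Finsupp.ne_iff.1 hx'
  refine ⟨i + 1, fun a ha h => hi ?_⟩
  have h' : f1 x + a = 0 := h
  have := DFunLike.congr_fun h' i
  rw [Finsupp.add_apply, ha i (by omega), add_zero] at this
  exact this

theorem main :
    ¬ (∀ (G : Type) [Group G] [Lattice G] [MulLeftMono G] [MulRightMono G]
      [TopologicalSpace G] [IsTopologicalGroup G] [TopologicalLattice G]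
      (A B : Subgroup G),
      A.Normal → B.Normal →
      IsClosed (A : Set G) → IsClosed (B : Set G) →
      (∀ x ∈ A, ∀ y ∈ A, x ⊔ y ∈ A ∧ x ⊓ y ∈ A) →
      (∀ x ∈ B, ∀ y ∈ B, x ⊔ y ∈ B ∧ x ⊓ y ∈ B) →
      ∀ φ : (↥A × ↥B) → G, (∀ p, φ p = (p.1 : G) * (p.2 : G)) →
      Function.Bijective φ →
      (∀ p q : ↥A × ↥B, p ≤ q ↔ φ p ≤ φ q) →
      ∃ e : (↥A × ↥B) ≃ₜ G, ∀ p, e p = φ p) := by
  intro H
  have hA2 : ∀ x ∈ AA, f2 x = 0 := fun x hx => hx
  have hB1 : ∀ x ∈ BB, f1 x = 0 := fun x hx => hx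
  obtain ⟨e, he⟩ := H G AA BB inferInstance inferInstance closedA closedB
    (fun x hx y hy => ⟨by
      show f2 x ⊔ f2 y = 0
      rw [hA2 x hx, hA2 y hy, sup_idem], by
      show f2 x ⊓ f2 y = 0
      rw [hA2 x hx, hA2 y hy, inf_idem]⟩)
    (fun x hx y hy => ⟨by
      show f1 x ⊔ f1 y = 0
      rw [hB1 x hx, hB1 y hy, sup_idem], by
      show f1 x ⊓ f1 y = 0
      rw [hB1 x hx, hB1 y hy, inf_idem]⟩)
    (fun p => (p.1 : G) * (p.2 : G)) (fun _ => rfl)
    (by
      constructor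
      · rintro ⟨a, b⟩ ⟨a', b'⟩ h
        have h' : (a : G) * (b : G) = (a' : G) * (b' : G) := h
        have e1 := congrArg f1 h'
        have e2 := congrArg f2 h'
        simp only [f1_mul, f2_mul, hB1 _ b.2, hB1 _ b'.2, hA2 _ a.2, hA2 _ a'.2, add_zero, zero_add] at e1 e2
        refine Prod.ext (Subtype.ext (ext' e1 ?_)) (Subtype.ext (ext' ?_ e2))
        · rw [hA2 _ a.2, hA2 _ a'.2]
        · rw [hB1 _ b.2, hB1 _ b'.2]
      · intro x
        refine ⟨(⟨mk (f1 x) 0, rfl⟩, ⟨mk 0 (f2 x), rfl⟩), ?_⟩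
        apply ext' <;> simp)
    (by
      rintro ⟨a, b⟩ ⟨a', b'⟩
      show ((a : G) ≤ (a' : G) ∧ (b : G) ≤ (b' : G)) ↔ (a : G) * (b : G) ≤ (a' : G) * (b' : G)
      rw [le_iff, le_iff, le_iff]
      simp only [f1_mul, f2_mul, hB1 _ b.2, hB1 _ b'.2, hA2 _ a.2, hA2 _ a'.2, add_zero, zero_add, le_refl, and_true,
        true_and])
  have hU0 := coset_open 1 0
  have hop : IsOpen ({p : AA × BB | (p.1 : G) ∈ {y : G | ∃ a : F, tail 0 a ∧ y = 1 * mk a a} ∧
      (p.2 : G) ∈ {y : G | ∃ a : F, tail 0 a ∧ y = 1 * mk a a}}) :=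
    (hU0.preimage (continuous_subtype_val.comp continuous_fst)).inter
      (hU0.preimage (continuous_subtype_val.comp continuous_snd))
  have hone : {p : AA × BB | (p.1 : G) ∈ {y : G | ∃ a : F, tail 0 a ∧ y = 1 * mk a a} ∧
      (p.2 : G) ∈ {y : G | ∃ a : F, tail 0 a ∧ y = 1 * mk a a}} = {1} := by
    ext ⟨p, q⟩
    constructor
    · rintro ⟨⟨a, _, ha⟩, ⟨b, _, hb⟩⟩
      have h1 := hA2 _ p.2
      rw [ha] at h1
      have h1' : a = 0 := by simpa using h1
      have h2 := hB1 _ q.2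
      rw [hb] at h2
      have h2' : b = 0 := by simpa using h2
      subst h1' h2'
      refine Prod.ext (Subtype.ext ?_) (Subtype.ext ?_)
      · rw [ha]; apply ext' <;> simp
      · rw [hb]; apply ext' <;> simp
    · intro h
      rw [mem_singleton_iff.1 h]
      exact ⟨⟨0, fun _ _ => rfl, by apply ext' <;> simp⟩, ⟨0, fun _ _ => rfl, by apply ext' <;> simp⟩⟩
  rw [hone] at hop
  have himg := e.isOpenMap _ hop
  rw [image_singleton] at himg
  obtain ⟨k, hk⟩ := himg (e 1) rfl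
  have h1 := hk (Finsupp.single k 1) (fun i hi => by
    rw [Finsupp.single_apply, if_neg (by omega)])
  have h2 : e 1 * mk (Finsupp.single k 1) (Finsupp.single k 1) = e 1 := h1
  have h3 : mk (Finsupp.single k 1) (Finsupp.single k 1) = 1 := by
    have := congrArg (fun z => (e 1)⁻¹ * z) h2
    simpa using this
  have h4 := DFunLike.congr_fun (congrArg f1 h3) k
  simp at h4

end Pool.Agent.TL
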